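import Pool.Agent.R516.AKP

/-!
# Progressions with prescribed common differences: the exponent 1.669587

A set `B ⊆ ℝ^n` which contains a `k`-term progression with every common difference in `[0,1]^n` has
lower (and upper) Minkowski dimension at least `n / 1.669587 = 0.59895... n`, for a `k` which does not
depend on `n`. More generally `N_δ(B) ≥ c |V| ^ (1 / 1.669587)` for every `δ`-separated set `V` of
common differences.
-/

set_option autoImplicit false

open Filter Topology

namespace Pool.Agent.Results.MP_4b405e_nt.ExponentBound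

/-- `B` contains a `k`-term progression with every common difference in `R`. -/
def HasProg {n : ℕ} (k : ℕ) (R B : Set (EuclideanSpace ℝ (Fin n))) : Prop :=
  ∀ r ∈ R, ∃ a : EuclideanSpace ℝ (Fin n), ∀ j : ℕ, j < k → a + (j : ℝ) • r ∈ B

/-- The unit cube `[0,1]^n`. -/
def cube (n : ℕ) : Set (EuclideanSpace ℝ (Fin n)) := {r | ∀ i, r i ∈ Set.Icc (0 : ℝ) 1}

/-- The least number of sets of diameter at most `δ` covering `B` (for bounded `B`). -/
noncomputable def coverNum {n : ℕ} (B : Set (EuclideanSpace ℝ (Fin n))) (δ : ℝ) : ℕ :=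
  sInf {N | ∃ U : Fin N → Set (EuclideanSpace ℝ (Fin n)),
    (∀ i, ∀ x ∈ U i, ∀ y ∈ U i, dist x y ≤ δ) ∧ B ⊆ ⋃ i, U i}

/-- Upper Minkowski dimension. -/
noncomputable def upperMinkowski {n : ℕ} (B : Set (EuclideanSpace ℝ (Fin n))) : EReal :=
  limsup (fun δ : ℝ => ((Real.log (coverNum B δ) / Real.log (1 / δ) : ℝ) : EReal)) (𝓝[>] 0)

/-- Lower Minkowski dimension. -/
noncomputable def lowerMinkowski {n : ℕ} (B : Set (EuclideanSpace ℝ (Fin n))) : EReal :=
  liminf (fun δ : ℝ => ((Real.log (coverNum B δ) / Real.log (1 / δ) : ℝ) : EReal)) (𝓝[>] 0)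

/-- `f^M_n(k)`: the infimum of the upper Minkowski dimensions of the bounded sets in `ℝ^n` that
contain a `k`-term progression with every common difference in `[0,1]^n` -/
noncomputable def fM (n k : ℕ) : EReal :=
  ⨅ (B : Set (EuclideanSpace ℝ (Fin n))) (_ : Bornology.IsBounded B) (_ : HasProg k (cube n) B),
    upperMinkowski B

theorem result :
    ∃ k₀ : ℕ,
      -- `f^M_n(k) ≥ n / 1.669587` for all `n` and all `k ≥ k₀`
      (∀ n k : ℕ, k₀ ≤ k → (((n : ℝ) / 1.669587 : ℝ) : EReal) ≤ fM n k) ∧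
      -- the same for the lower Minkowski dimension
      (∀ (n : ℕ) (B : Set (EuclideanSpace ℝ (Fin n))), Bornology.IsBounded B →
        HasProg k₀ (cube n) B → (((n : ℝ) / 1.669587 : ℝ) : EReal) ≤ lowerMinkowski B) ∧
      -- covering numbers at every scale, for an arbitrary set `R` of common differences: `V ⊆ R` is
      -- finite and separated in the maximum norm, `U` is a finite covering of `B`
      (∀ n : ℕ, ∃ D : ℝ, 1 ≤ D ∧ ∀ R B : Set (EuclideanSpace ℝ (Fin n)), HasProg k₀ R B →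
        ∀ δ : ℝ, 0 < δ → ∀ V : Finset (EuclideanSpace ℝ (Fin n)), (∀ v ∈ V, v ∈ R) →
          (∀ v ∈ V, ∀ w ∈ V, v ≠ w → ∃ i, δ ≤ |v i - w i|) →
          ∀ (ι : Type) [Fintype ι] (U : ι → Set (EuclideanSpace ℝ (Fin n))),
          (∀ i, ∀ x ∈ U i, ∀ y ∈ U i, dist x y ≤ δ) → B ⊆ ⋃ i, U i →
          (V.card : ℝ) ≤ (D * (Fintype.card ι : ℝ)) ^ (1.669587 : ℝ)) := by
  have hsd : Pool.Agent.W46.KK.SD (1669587 / 1000000) := by
    obtain ⟨S, h⟩ := Pool.Agent.TH404.AK.sdc3
    exact ⟨S, h⟩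
  have e : (1.669587 : ℝ) = 1669587 / 1000000 := by norm_num
  rw [e]
  obtain ⟨k, h1, -, h3, h4⟩ := Pool.Agent.R516.AKP.all hsd (by norm_num)
  exact ⟨k, h4, h3, h1⟩

end Pool.Agent.Results.MP_4b405e_nt.ExponentBound
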