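import Mathlib
import Pool.Agent.R462.HP.Sharp

set_option autoImplicit false

/-!
# MP_4b405e_nt: the arithmetic Kakeya problem for regular families of progressions

A set `B ⊆ ℝ^n` contains the progressions `a r, a r + r, …, a r + (k-1) r` for all `r` in a nonempty
open set (or in the cube `[0,1]^n`), where the first term `a r` is a function of `r` of class `C^α`
for some `α > 1 - 1/n`, or a continuous function of the critical class `W^{1-1/n,n}`. Then `B` has
positive Hausdorff measure of dimension `n - ⌊n/k⌋`; it has positive volume as soon as `k ≥ n + 1`.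
The least Hausdorff dimension and the least upper Minkowski dimension are exactly `n - ⌊n/k⌋`, the
same values as for semialgebraic sets (starting file `AlgebraicSets`).

More generally the possible dimensions `d t` of the sets `{a r + t r}`, for `t` in any finite set `T`
of real numbers, are characterised by `∑_{t ∈ T} (n - d t) ≤ n`.

Proof. For smooth `a` the polynomial `t ↦ det (Da + t)` of degree `n` vanishes to the order
`n - d t` at `t`, because its Taylor coefficients are sums of principal minors of `Da + t` of size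
larger than `d t`. In the classes above `Da` does not exist, but the principal minors of `Da + t` are
well defined distributions (limits along mollifications), and they vanish if the corresponding
projections of the set `{a r + t r}` are null sets; the leading coefficient is the constant one.
-/

open MeasureTheory Set Filter Topology
open scoped ENNReal

namespace Pool.Agent.Results.MP_4b405e_nt.HoelderProgressions

/-- `ℝ^n` with its Euclidean norm. -/
abbrev E (n : ℕ) := EuclideanSpace ℝ (Fin n)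

/-- `a` is of class `C^α` on `U` for some `α > 1 - 1/n`, or it is continuous on `U` and of the
critical class `W^{1-1/n,n}`: `∫_U ∫_U |a r - a r'|^n / |r - r'|^(2n-1) < ∞`. -/
def Regular {n : ℕ} (a : E n → E n) (U : Set (E n)) : Prop :=
  (∃ α C : ℝ, 1 - 1 / (n : ℝ) < α ∧ ∀ r ∈ U, ∀ r' ∈ U, ‖a r - a r'‖ ≤ C * ‖r - r'‖ ^ α) ∨
    (ContinuousOn a U ∧
      ∫⁻ r in U, ∫⁻ r' in U, ‖a r - a r'‖ₑ ^ n / ‖r - r'‖ₑ ^ (2 * n - 1) < ⊤)

/-- The cube `[0,1]^n` of common differences. -/
def cube (n : ℕ) : Set (E n) := {r | ∀ i, r i ∈ Set.Icc (0 : ℝ) 1}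

/-- `B` contains a `k`-term progression with every common difference `r ∈ [0,1]^n`, and its first
term can be chosen as a function of `r` of class `C^α`. -/
def HasHoelder {n : ℕ} (α : ℝ) (k : ℕ) (B : Set (E n)) : Prop :=
  ∃ a : E n → E n, (∃ C : ℝ, ∀ r ∈ cube n, ∀ r' ∈ cube n, ‖a r - a r'‖ ≤ C * ‖r - r'‖ ^ α) ∧
    ∀ r ∈ cube n, ∀ j : ℕ, j < k → a r + (j : ℝ) • r ∈ B

/-- The least number of sets of diameter at most `δ` covering `B` (for bounded `B`). -/
noncomputable def coverNum {n : ℕ} (B : Set (EuclideanSpace ℝ (Fin n))) (δ : ℝ) : ℕ :=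
  sInf {N | ∃ U : Fin N → Set (EuclideanSpace ℝ (Fin n)),
    (∀ i, ∀ x ∈ U i, ∀ y ∈ U i, dist x y ≤ δ) ∧ B ⊆ ⋃ i, U i}

/-- Upper Minkowski dimension (upper box-counting dimension). -/
noncomputable def upperMinkowski {n : ℕ} (B : Set (EuclideanSpace ℝ (Fin n))) : EReal :=
  limsup (fun δ : ℝ => ((Real.log (coverNum B δ) / Real.log (1 / δ) : ℝ) : EReal)) (𝓝[>] 0)

theorem result :
    -- (1) the possible dimensions of the sets `{a r + t r}` for `t` in a finite set of real numbers
    (∀ n : ℕ, 1 ≤ n → ∀ (T : Finset ℝ) (d : ℝ → ℕ), (∀ t ∈ T, d t ≤ n) →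
      ((∃ (U : Set (E n)) (a : E n → E n), IsOpen U ∧ U.Nonempty ∧ Regular a U ∧
          ∀ t ∈ T, Measure.hausdorffMeasure ((d t : ℝ) + 1) ((fun r => a r + t • r) '' U) = 0) ↔
        ∑ t ∈ T, (n - d t) ≤ n)) ∧
    -- (2) the exact least dimensions of sets with regular progressions
    (∀ n k : ℕ, 1 ≤ n → 1 ≤ k → ∀ α : ℝ, 1 - 1 / (n : ℝ) < α → α ≤ 1 →
      IsLeast {D : EReal | ∃ B : Set (E n), Bornology.IsBounded B ∧ HasHoelder α k B ∧
        upperMinkowski B = D} (((n - n / k : ℕ) : ℝ) : EReal) ∧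
      IsLeast {D : ℝ≥0∞ | ∃ B : Set (E n), Bornology.IsBounded B ∧ HasHoelder α k B ∧
        dimH B = D} ((n - n / k : ℕ) : ℝ≥0∞)) ∧
    -- (3) differences in an open set; positive volume for more than `n` terms
    (∀ n k : ℕ, 1 ≤ n → 1 ≤ k → ∀ U : Set (E n), IsOpen U → U.Nonempty → ∀ a : E n → E n,
      Regular a U → ∀ B : Set (E n), (∀ r ∈ U, ∀ j : ℕ, j < k → a r + (j : ℝ) • r ∈ B) →
      0 < Measure.hausdorffMeasure ((n - n / k : ℕ) : ℝ) B ∧ (n < k → 0 < volume B)) ∧
    -- (4) smaller exponents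
    (∀ n m k : ℕ, 1 ≤ m → m ≤ n → 1 ≤ k → ∀ α C : ℝ, 1 - 1 / (m : ℝ) < α →
      ∀ U : Set (E n), IsOpen U → U.Nonempty → ∀ a : E n → E n,
      (∀ r ∈ U, ∀ r' ∈ U, ‖a r - a r'‖ ≤ C * ‖r - r'‖ ^ α) →
      ∀ B : Set (E n), (∀ r ∈ U, ∀ j : ℕ, j < k → a r + (j : ℝ) • r ∈ B) →
      0 < Measure.hausdorffMeasure ((m - m / k : ℕ) : ℝ) B) := by
  refine ⟨?_, ?_, ?_, ?_⟩
  · intro n hn T d hd
    constructor
    · rintro ⟨U, a, hU, hUn, hreg, h⟩
      exact Pool.Agent.R462.HP.slices_dim hn hU hUn hreg T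
        (fun t => (fun r => a r + t • r) '' U) d (fun t _ r hr => ⟨r, hr, rfl⟩) h
    · exact Pool.Agent.R462.HP.slices_sharp hn T d hd
  · intro n k hn hk α hα hα1
    obtain ⟨B, hBb, hBp, hBd⟩ := Pool.Agent.R462.HP.upper (n := n) hk hα1
    have hlow : ∀ B : Set (E n), HasHoelder α k B →
        Measure.hausdorffMeasure ((n - n / k : ℕ) : ℝ) B ≠ 0 :=
      fun B hB => Pool.Agent.R462.HP.lower hn hk hα hB
    have hM : ∀ B : Set (E n), Bornology.IsBounded B → HasHoelder α k B →
        (((n - n / k : ℕ) : ℝ) : EReal) ≤ upperMinkowski B :=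
      fun B hb hB => Pool.Agent.R462.HP.le_upperMinkowski hb (Nat.cast_nonneg _) (hlow B hB)
    refine ⟨⟨⟨B, hBb, hBp, le_antisymm hBd (hM B hBb hBp)⟩, ?_⟩, ⟨⟨B, hBb, hBp, ?_⟩, ?_⟩⟩
    · rintro D ⟨B', hb, hp, rfl⟩
      exact hM B' hb hp
    · exact le_antisymm (Pool.Agent.R462.HP.dimH_le hBb hBd)
        (Pool.Agent.R462.HP.natCast_le_dimH (hlow B hBp))
    · rintro D ⟨B', hb, hp, rfl⟩
      exact Pool.Agent.R462.HP.natCast_le_dimH (hlow B' hp)
  · intro n k hn hk U hU hUn a hreg B hB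
    have h := Pool.Agent.R462.HP.prog_reg hn hk hU hUn hreg hB
    refine ⟨pos_iff_ne_zero.2 h, fun hnk => ?_⟩
    rw [Nat.div_eq_of_lt hnk, Nat.sub_zero] at h
    exact Pool.Agent.R462.HP.volume_pos h
  · intro n m k hm hmn hk α C hα U hU hUn a ha B hB
    exact pos_iff_ne_zero.2 (Pool.Agent.R462.HP.prog_low hm hmn hk hU hUn hα ha hB)

end Pool.Agent.Results.MP_4b405e_nt.HoelderProgressions
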