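import Pool.Agent.R470.AK.Pat3

/-! # Other patterns with prescribed differences: lacunary patterns behave in the opposite way

The conjecture says that bounded sets which contain `a, a + r, …, a + (k-1) r` for every
`r ∈ [0,1]^n` have Minkowski dimension close to `n` for large `k`. We show that this is a special
property of arithmetic progressions:

1. EVERY infinite set of multipliers contains an infinite subset `E'` such that for all finite
   `S ⊆ E'` (of any size) some bounded set of upper Minkowski dimension `≤ n (1/2 + ε)` contains a point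
   `x` and all points `x + q r`, `q ∈ S`, for every `r ∈ [0,1]^n`.
2. The same for the points `x`, `x + r / s_j` of every integer sequence with large `s_0` and
   `s_{j+1} ≥ s_j ^ K` (`K ≥ 3`), with the dimension `n (1/2 + 1 / (2 K - 2) + ε)`. -/

set_option autoImplicit false

open Filter Topology

namespace Pool.Agent.Results.MP_4b405e_nt.LacunaryPatterns

/-- for every `r ∈ [0,1]^n` there is a point `x ∈ B` such that `x + q r ∈ B` for all `q ∈ S` -/
def HasPattern {n : ℕ} (S : Finset ℚ) (B : Set (EuclideanSpace ℝ (Fin n))) : Prop :=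
  ∀ r : EuclideanSpace ℝ (Fin n), (∀ i, r i ∈ Set.Icc (0 : ℝ) 1) →
    ∃ x ∈ B, ∀ q ∈ S, x + (q : ℝ) • r ∈ B

/-- The least number of sets of diameter at most `δ` covering `B` (for bounded `B`). -/
noncomputable def coverNum {n : ℕ} (B : Set (EuclideanSpace ℝ (Fin n))) (δ : ℝ) : ℕ :=
  sInf {N | ∃ U : Fin N → Set (EuclideanSpace ℝ (Fin n)),
    (∀ i, ∀ x ∈ U i, ∀ y ∈ U i, dist x y ≤ δ) ∧ B ⊆ ⋃ i, U i}

/-- Upper Minkowski dimension. -/
noncomputable def upperMinkowski {n : ℕ} (B : Set (EuclideanSpace ℝ (Fin n))) : EReal :=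
  limsup (fun δ : ℝ => ((Real.log (coverNum B δ) / Real.log (1 / δ) : ℝ) : EReal)) (𝓝[>] 0)

lemma coverNum_le {n : ℕ} {B : Set (EuclideanSpace ℝ (Fin n))} {δ : ℝ}
    {Q : Finset (EuclideanSpace ℝ (Fin n))} (h : B ⊆ ⋃ y ∈ Q, Metric.ball y (δ / 2)) :
    coverNum B δ ≤ Q.card := by
  classical
  apply Nat.sInf_le
  refine ⟨fun i => Metric.ball ((Q.equivFin.symm i : Q) : EuclideanSpace ℝ (Fin n)) (δ / 2),
    fun i x hx y hy => ?_, fun x hx => ?_⟩
  · rw [Metric.mem_ball] at hx hy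
    have := dist_triangle_right x y
      ((Q.equivFin.symm i : Q) : EuclideanSpace ℝ (Fin n))
    linarith
  · have := h hx
    simp only [Set.mem_iUnion] at this
    obtain ⟨y, hy, hxy⟩ := this
    rw [Set.mem_iUnion]
    refine ⟨Q.equivFin ⟨y, hy⟩, ?_⟩
    simpa using hxy

lemma upper_le {n : ℕ} {B : Set (EuclideanSpace ℝ (Fin n))} {θ : ℝ} (hθ : 0 ≤ θ)
    (h : ∃ C : ℝ, 0 < C ∧ ∀ δ : ℝ, 0 < δ → δ ≤ 1 → ∃ Q : Finset (EuclideanSpace ℝ (Fin n)),
        (Q.card : ℝ) ≤ C * δ ^ (-θ) ∧ B ⊆ ⋃ y ∈ Q, Metric.ball y δ) :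
    upperMinkowski B ≤ (θ : ℝ) := by
  obtain ⟨C, hC, hcov⟩ := h
  set C' : ℝ := C * 2 ^ θ + 1 with hC'
  have hC'1 : 1 ≤ C' := by
    have : 0 ≤ C * 2 ^ θ := by positivity
    linarith
  have hlim : Tendsto (fun δ : ℝ => Real.log C' / Real.log (1 / δ) + θ) (𝓝[>] 0) (𝓝 θ) := by
    have h1 : Tendsto (fun δ : ℝ => Real.log (1 / δ)) (𝓝[>] 0) atTop := by
      have h2 : Tendsto (fun δ : ℝ => δ⁻¹) (𝓝[>] 0) atTop := tendsto_inv_nhdsGT_zero
      have h3 := Real.tendsto_log_atTop.comp h2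
      refine h3.congr fun δ => ?_
      simp [Function.comp, one_div]
    have h4 := (h1.const_div_atTop (Real.log C')).add_const θ
    rw [zero_add] at h4
    exact h4
  have hlim2 : Tendsto (fun δ : ℝ => ((Real.log C' / Real.log (1 / δ) + θ : ℝ) : EReal))
      (𝓝[>] 0) (𝓝 (θ : EReal)) :=
    (continuous_coe_real_ereal.tendsto θ).comp hlim
  rw [← hlim2.limsup_eq]
  refine limsup_le_limsup ?_
  have hmem : Set.Ioo (0 : ℝ) 1 ∈ 𝓝[>] (0 : ℝ) := Ioo_mem_nhdsGT one_pos
  filter_upwards [hmem] with δ hδ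
  obtain ⟨h0, h1⟩ := hδ
  rw [EReal.coe_le_coe_iff]
  have hlog : 0 < Real.log (1 / δ) := Real.log_pos (by rw [lt_div_iff₀ h0]; linarith)
  obtain ⟨Q, hQ, hQB⟩ := hcov (δ / 2) (by linarith) (by linarith)
  have hN := coverNum_le hQB
  have hNR : (coverNum B δ : ℝ) ≤ C' * δ ^ (-θ) := by
    have h5 : (coverNum B δ : ℝ) ≤ Q.card := by exact_mod_cast hN
    have h6 : (δ / 2) ^ (-θ) = 2 ^ θ * δ ^ (-θ) := by
      rw [Real.div_rpow h0.le (by norm_num), Real.rpow_neg (by norm_num : (0 : ℝ) ≤ 2),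
        div_inv_eq_mul, mul_comm]
    rw [h6] at hQ
    have h7 : 0 < δ ^ (-θ) := Real.rpow_pos_of_pos h0 _
    calc (coverNum B δ : ℝ) ≤ C * (2 ^ θ * δ ^ (-θ)) := h5.trans hQ
      _ ≤ C' * δ ^ (-θ) := by
          rw [hC', ← mul_assoc, add_mul]
          linarith
  rw [div_add' _ _ _ hlog.ne', div_le_div_iff_of_pos_right hlog]
  rcases Nat.eq_zero_or_pos (coverNum B δ) with h8 | h8
  · rw [h8]
    simp only [Nat.cast_zero, Real.log_zero]
    have := Real.log_nonneg hC'1
    positivity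
  · calc Real.log (coverNum B δ) ≤ Real.log (C' * δ ^ (-θ)) :=
          Real.log_le_log (by exact_mod_cast h8) hNR
      _ = Real.log C' + θ * Real.log (1 / δ) := by
          rw [Real.log_mul (by positivity) (Real.rpow_pos_of_pos h0 _).ne', Real.log_rpow h0,
            one_div, Real.log_inv]
          ring

lemma bounded_of_cover {n : ℕ} {B : Set (EuclideanSpace ℝ (Fin n))} {θ : ℝ}
    (h : ∃ C : ℝ, 0 < C ∧ ∀ δ : ℝ, 0 < δ → δ ≤ 1 → ∃ Q : Finset (EuclideanSpace ℝ (Fin n)),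
        (Q.card : ℝ) ≤ C * δ ^ (-θ) ∧ B ⊆ ⋃ y ∈ Q, Metric.ball y δ) :
    Bornology.IsBounded B := by
  obtain ⟨C, -, hcov⟩ := h
  obtain ⟨Q, -, hQ⟩ := hcov 1 one_pos le_rfl
  exact ((Bornology.isBounded_biUnion_finset Q).2 fun _ _ => Metric.isBounded_ball).subset hQ

theorem result :
    -- 1. every infinite set of multipliers contains an infinite set of small patterns
    (∀ ε : ℝ, 0 < ε → ∀ E : Set ℚ, E.Infinite → ∃ E' : Set ℚ, E' ⊆ E ∧ E'.Infinite ∧
      ∀ S : Finset ℚ, (S : Set ℚ) ⊆ E' → ∀ n : ℕ,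
        ∃ B : Set (EuclideanSpace ℝ (Fin n)), Bornology.IsBounded B ∧ HasPattern S B ∧
          upperMinkowski B ≤ ((n * (1 / 2 + ε) : ℝ) : EReal)) ∧
    -- 2. lacunary sequences
    (∀ K : ℕ, 3 ≤ K → ∀ ε : ℝ, 0 < ε → ∃ N : ℕ, ∀ s : ℕ → ℕ, N ≤ s 0 →
      (∀ j, s j ^ K ≤ s (j + 1)) → ∀ k n : ℕ,
        ∃ B : Set (EuclideanSpace ℝ (Fin n)), Bornology.IsBounded B ∧
          HasPattern ((Finset.range k).image fun j => 1 / (s j : ℚ)) B ∧
          upperMinkowski B ≤ ((n * (1 / 2 + 1 / (2 * K - 2) + ε) : ℝ) : EReal)) := by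
  classical
  refine ⟨fun ε hε E hE => ?_, fun K hK ε hε => ?_⟩
  · set κ' : ℝ := 1 / (1 / 2 + ε) with hκ'
    have hκ'0 : 0 < κ' := by positivity
    have hκ'2 : κ' < 2 := by
      rw [hκ', div_lt_iff₀ (by positivity)]
      linarith
    have hinv : ∀ n : ℕ, (n : ℝ) / κ' = n * (1 / 2 + ε) := by
      intro n
      rw [hκ', div_div_eq_mul_div, div_one]
    set R : Set ℚ := (fun q : ℚ => 1 / q - 1) '' (E \ {0}) with hR
    have hinj : Function.Injective fun q : ℚ => 1 / q - 1 := by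
      intro x y h
      have h' : 1 / x = 1 / y := by
        have := h
        simp only at this
        linarith
      simpa using h'
    have hRinf : R.Infinite :=
      (hE.diff (Set.finite_singleton 0)).image hinj.injOn
    obtain ⟨T, hTR, hT, hTS⟩ := Pool.Agent.R470.AK.hereditary ((κ' + 2) / 2) (by linarith) R hRinf
    refine ⟨{q | q ∈ E \ {0} ∧ 1 / q - 1 ∈ T}, fun q hq => hq.1.1, ?_, fun S hS n => ?_⟩
    · intro hfin
      apply hT
      apply (hfin.image fun q : ℚ => 1 / q - 1).subset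
      intro t ht
      obtain ⟨q, hq, rfl⟩ := hTR ht
      exact ⟨q, ⟨hq, ht⟩, rfl⟩
    · have hne : ∀ q ∈ S, q ≠ 0 := fun q hq h0 => (hS (Finset.mem_coe.2 hq)).1.2 h0
      have hm1 : (-1 : ℚ) ∉ S.image fun q : ℚ => 1 / q - 1 := by
        intro h
        obtain ⟨q, hq, h1⟩ := Finset.mem_image.1 h
        have h2 : 1 / q = 0 := by linarith
        have := hne q hq
        rw [one_div, inv_eq_zero] at h2
        exact this h2
      obtain ⟨B, hB1, hB2⟩ := Pool.Agent.R470.AK.pattern_of_slopes hm1 ((κ' + 2) / 2) κ' hκ'0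
        (by linarith) (fun C => hTS _ (by
          intro t ht
          obtain ⟨q, hq, rfl⟩ := Finset.mem_image.1 (Finset.mem_coe.1 ht)
          exact (hS (Finset.mem_coe.2 hq)).2) C) n
      rw [hinv] at hB2
      refine ⟨B, bounded_of_cover hB2, fun r hr => ?_, upper_le (by positivity) hB2⟩
      obtain ⟨x, hx, hxq⟩ := hB1 r hr
      refine ⟨x, hx, fun q hq => ?_⟩
      have := hxq (1 / q - 1) (Finset.mem_image_of_mem _ hq)
      rwa [show (1 / (1 / q - 1 + 1) : ℚ) = q by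
        have := hne q hq
        field_simp
        ring] at this
  · obtain ⟨m, rfl⟩ : ∃ m, K = m + 1 := ⟨K - 1, by omega⟩
    have hm2 : 2 ≤ m := by omega
    have hmR : (2 : ℝ) ≤ m := by exact_mod_cast hm2
    set θ : ℝ := 1 / 2 + 1 / (2 * ((m + 1 : ℕ) : ℝ) - 2) + ε with hθ
    have hθ0 : 0 < θ := by
      have : (0 : ℝ) < 2 * ((m + 1 : ℕ) : ℝ) - 2 := by push_cast; linarith
      positivity
    set κ' : ℝ := 1 / θ with hκ'
    have hκ'0 : 0 < κ' := by positivity
    have hκ'2 : κ' < 2 * m / (m + 1) := by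
      rw [hκ', div_lt_div_iff₀ hθ0 (by positivity)]
      have hm0 : (m : ℝ) ≠ 0 := (by linarith : (0 : ℝ) < m).ne'
      have e : θ = (m + 1) / (2 * m) + ε := by
        rw [hθ]
        push_cast
        rw [show 2 * ((m : ℝ) + 1) - 2 = 2 * m by ring]
        field_simp
      have e2 : 2 * (m : ℝ) * ((m + 1) / (2 * m)) = m + 1 := by field_simp
      have e3 : 2 * (m : ℝ) * ((m + 1) / (2 * m) + ε) = m + 1 + 2 * m * ε := by
        rw [mul_add, e2]
      rw [e, e3]
      have : 0 < 2 * (m : ℝ) * ε := by positivity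
      linarith
    have hinv : ∀ n : ℕ, (n : ℝ) / κ' = n * θ := by
      intro n
      rw [hκ', div_div_eq_mul_div, div_one]
    obtain ⟨N, hN⟩ := Pool.Agent.R470.AK.explicit m hm2 ((κ' + 2 * m / (m + 1)) / 2) (by linarith)
    refine ⟨N + 1, fun s hs0 hs k n => ?_⟩
    have hmono : ∀ j, s 0 ≤ s j := by
      intro j
      induction j with
      | zero => exact le_rfl
      | succ j ih => exact ih.trans ((Nat.le_self_pow (by omega) _).trans (hs j))
    have hpos : ∀ j, 1 ≤ s j := fun j => le_trans (by omega) (hmono j)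
    have hm1 : (-1 : ℚ) ∉ (Finset.range k).image fun j => ((s j - 1 : ℕ) : ℚ) := by
      intro h
      obtain ⟨j, -, h1⟩ := Finset.mem_image.1 h
      have : (0 : ℚ) ≤ ((s j - 1 : ℕ) : ℚ) := Nat.cast_nonneg _
      linarith
    obtain ⟨B, hB1, hB2⟩ := Pool.Agent.R470.AK.pattern_of_slopes hm1
      ((κ' + 2 * m / (m + 1)) / 2) κ' hκ'0 (by linarith) (fun C => hN (fun j => s j - 1)
        (by omega) (by
          intro j
          have h1 : (s j - 1) ^ (m + 1) < s j ^ (m + 1) :=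
            Nat.pow_lt_pow_left (by have := hpos j; omega) (by omega)
          have h2 := hs j
          omega) _ (by
          intro t ht
          obtain ⟨j, -, rfl⟩ := Finset.mem_image.1 (Finset.mem_coe.1 ht)
          exact ⟨j, rfl⟩) C) n
    rw [hinv] at hB2
    refine ⟨B, bounded_of_cover hB2, fun r hr => ?_, upper_le (by positivity) hB2⟩
    obtain ⟨x, hx, hxq⟩ := hB1 r hr
    refine ⟨x, hx, fun q hq => ?_⟩
    obtain ⟨j, hj, rfl⟩ := Finset.mem_image.1 hq
    have := hxq _ (Finset.mem_image_of_mem _ hj)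
    have e : (((s j - 1 : ℕ) : ℚ) + 1) = s j := by
      rw [Nat.cast_sub (hpos j)]
      push_cast
      ring
    rwa [e] at this

end Pool.Agent.Results.MP_4b405e_nt.LacunaryPatterns
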