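import Pool.Agent.TH404.AK.Sdc3
import Pool.Agent.R535.AK.GeoQ

/-!
# Progressions with a random set of common differences

There is a `k` such that for every dimension `n` the following holds at every scale. Let `V` be ANY
finite set of vectors of `ℝ ^ n` which are `δ`-separated, and let `τ < 1 / 1.669587 = 0.5989...` and
`N ≤ |V| ^ τ`. For all but a proportion `2 ^ (-N)` of the `N`-element subsets `V'` of `V`, EVERY bounded
set `B` which contains a `k`-term progression with every common difference in `V'` has covering
number `N_δ(B) ≥ c N`, where `c = c(n, τ, C)` and the diameter of `B` is at most `δ |V| ^ C`. So almost all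
sets of common differences satisfy the estimate of the conjecture with no loss in the exponent.

If the same holds for all `τ < 1` (with `k` depending on `τ`) in a dimension `n ≥ 1`, then
`f^M_n(k) → n`, and in fact `Good n k τ` implies `f^M_n(k) ≥ n τ`.
-/

set_option autoImplicit false

namespace Pool.Agent.Results.MP_4b405e_nt.RandomDifferences

open Pool.Agent.R535.AK

theorem result :
    (∃ k : ℕ, ∀ n : ℕ, ∀ τ : ℝ, 0 < τ → τ < 1 / 1.669587 → Good n k τ) ∧
    (∀ n k : ℕ, 1 ≤ n → ∀ τ : ℝ, 0 < τ → τ ≤ 1 → Good n k τ →
      (((n : ℝ) * τ : ℝ) : EReal) ≤ Pool.Agent.W46.KK.fM n k) := by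
  have hsd : Pool.Agent.W46.KK.SD 1.669587 := by
    obtain ⟨S, h⟩ := Pool.Agent.TH404.AK.sdc3
    have e : (1.669587 : ℝ) = 1669587 / 1000000 := by norm_num
    rw [e]
    exact ⟨S, h⟩
  exact ⟨good_of_SD (by norm_num) hsd, fun n k hn τ h0 h1 h => dim_of_good hn h0 h1 h⟩

end Pool.Agent.Results.MP_4b405e_nt.RandomDifferences
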